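import Mathlib

/-!
# The geodesic hull of a Gromov-Hausdorff geodesic is not unique

`γ(t)` is the space with three points `a`, `a'`, `b` and the distances `d(a, a') = 20 + 2 t`,
`d(a, b) = d(a', b) = 15`. In the plane with the supremum metric it is realized by the points
`(-10 - t, 0)`, `(10 + t, 0)`, `(0, 15)` and also by the points `(-10 - t, 0)`, `(10 + t, 0)`,
`(t, 15)`. Both families realize the geodesic, but the first union of the images has an isolated
point and the second one has none.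
-/

set_option autoImplicit false

namespace Pool.Agent.Results.MP_457a5a_gt.TwoHulls

open Set Metric GromovHausdorff unitInterval

/-- `γ : [0, 1] → 𝓜` is a Gromov-Hausdorff geodesic. Here `𝓜` is Mathlib's space `GHSpace` of the
isometry classes of the nonempty compact metric spaces with the Gromov-Hausdorff distance. -/
def IsGHGeodesic (γ : I → GHSpace) : Prop :=
  ∀ s t : I, dist (γ s) (γ t) = |(s : ℝ) - t| * dist (γ 0) (γ 1)

/-- The maps `φ t` are a Hausdorff realization of `γ` in `X`: they are isometric embeddings of (a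
representative `(γ t).Rep` of the isometry class) `γ t`, and the Hausdorff distances of the images
are the Gromov-Hausdorff distances. -/
def IsHausdorffRealization (γ : I → GHSpace) {X : Type} [MetricSpace X]
    (φ : ∀ t : I, (γ t).Rep → X) : Prop :=
  (∀ t, Isometry (φ t)) ∧
    ∀ s t, hausdorffDist (range (φ s)) (range (φ t)) = dist (γ s) (γ t)

/-- The union `𝒢_X` of the images of a realization. -/
def hull (γ : I → GHSpace) {X : Type} (φ : ∀ t : I, (γ t).Rep → X) : Set X := ⋃ t, range (φ t)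

/-- The three points. -/
noncomputable def pt (c : ℝ) (t : I) : Fin 3 → ℝ × ℝ :=
  ![(-10 - (t : ℝ), 0), (10 + (t : ℝ), 0), (c * (t : ℝ), 15)]

theorem dist_pt (c : ℝ) (h0 : 0 ≤ c) (h1 : c ≤ 1) (t : I) (i j : Fin 3) :
    dist (pt c t i) (pt c t j) = dist (pt 0 t i) (pt 0 t j) := by
  have ht0 := t.2.1
  have ht1 := t.2.2
  have hct0 : 0 ≤ c * (t : ℝ) := mul_nonneg h0 ht0
  have hct1 : c * (t : ℝ) ≤ t := by nlinarith
  have e02 : ∀ c : ℝ, 0 ≤ c * (t : ℝ) → c * (t : ℝ) ≤ t → dist (pt c t 0) (pt c t 2) = 15 := by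
    intro c hc0 hc1
    simp only [pt, Prod.dist_eq, Real.dist_eq, Matrix.cons_val_zero, Matrix.cons_val]
    rw [abs_of_nonpos (by linarith : -10 - (t : ℝ) - c * t ≤ 0)]
    norm_num
    linarith
  have e12 : ∀ c : ℝ, 0 ≤ c * (t : ℝ) → c * (t : ℝ) ≤ t → dist (pt c t 1) (pt c t 2) = 15 := by
    intro c hc0 hc1
    simp only [pt, Prod.dist_eq, Real.dist_eq, Matrix.cons_val_one, Matrix.cons_val]
    rw [abs_of_nonneg (by linarith : 0 ≤ 10 + (t : ℝ) - c * t)]
    norm_num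
    linarith
  have e01 : ∀ c : ℝ, dist (pt c t 0) (pt c t 1) = dist (pt 0 t 0) (pt 0 t 1) := fun c => rfl
  have z0 : (0 : ℝ) ≤ 0 * (t : ℝ) := by simp
  have z1 : 0 * (t : ℝ) ≤ t := by simpa using ht0
  fin_cases i <;> fin_cases j <;> simp only [Fin.zero_eta, Fin.mk_one, Fin.reduceFinMk, dist_self]
  · exact e01 c
  · rw [e02 c hct0 hct1, e02 0 z0 z1]
  · rw [dist_comm, e01 c, dist_comm]
  · rw [e12 c hct0 hct1, e12 0 z0 z1]
  · rw [dist_comm, e02 c hct0 hct1, dist_comm, e02 0 z0 z1]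
  · rw [dist_comm, e12 c hct0 hct1, dist_comm, e12 0 z0 z1]

theorem dist_01 (t : I) : dist (pt 0 t 0) (pt 0 t 1) = 20 + 2 * (t : ℝ) := by
  have ht0 := t.2.1
  simp only [pt, Prod.dist_eq, Real.dist_eq, Matrix.cons_val_zero, Matrix.cons_val_one]
  rw [abs_of_nonpos (by linarith)]
  simp only [sub_self, abs_zero, neg_sub]
  rw [max_eq_left (by linarith)]
  ring

theorem dist_le (t : I) (i j : Fin 3) : dist (pt 0 t i) (pt 0 t j) ≤ 20 + 2 * (t : ℝ) := by
  have ht0 := t.2.1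
  have ht1 := t.2.2
  have e02 : dist (pt 0 t 0) (pt 0 t 2) ≤ 20 + 2 * (t : ℝ) := by
    simp only [pt, Prod.dist_eq, Real.dist_eq, Matrix.cons_val_zero, Matrix.cons_val]
    rw [abs_of_nonpos (by linarith : -10 - (t : ℝ) - 0 * t ≤ 0)]
    norm_num
    constructor <;> linarith
  have e12 : dist (pt 0 t 1) (pt 0 t 2) ≤ 20 + 2 * (t : ℝ) := by
    simp only [pt, Prod.dist_eq, Real.dist_eq, Matrix.cons_val_one, Matrix.cons_val]
    rw [abs_of_nonneg (by linarith : 0 ≤ 10 + (t : ℝ) - 0 * t)]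
    norm_num
    constructor <;> linarith
  fin_cases i <;> fin_cases j <;> simp only [Fin.zero_eta, Fin.mk_one, Fin.reduceFinMk, dist_self]
  · linarith
  · exact (dist_01 t).le
  · exact e02
  · rw [dist_comm]; exact (dist_01 t).le
  · linarith
  · exact e12
  · rw [dist_comm]; exact e02
  · rw [dist_comm]; exact e12
  · linarith

theorem inj (c : ℝ) (t : I) : Function.Injective (pt c t) := by
  have ht0 := t.2.1
  intro i j hij
  fin_cases i <;> fin_cases j <;> simp_all [pt]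
  all_goals linarith

/-- The space `γ(t)`. -/
abbrev S (c : ℝ) (t : I) : Set (ℝ × ℝ) := range (pt c t)

instance (c : ℝ) (t : I) : CompactSpace (S c t) :=
  isCompact_iff_compactSpace.1 (finite_range _).isCompact

instance (c : ℝ) (t : I) : Nonempty (S c t) := ⟨⟨pt c t 0, mem_range_self _⟩⟩

/-- The geodesic. -/
noncomputable def geo (t : I) : GHSpace := toGHSpace (S 0 t)

/-- The two realizations have isometric pieces. -/
theorem pieces (c : ℝ) (h0 : 0 ≤ c) (h1 : c ≤ 1) (t : I) : Nonempty (S 0 t ≃ᵢ S c t) := by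
  let e : S 0 t ≃ S c t := (Equiv.ofInjective _ (inj 0 t)).symm.trans (Equiv.ofInjective _ (inj c t))
  refine ⟨⟨e, ?_⟩⟩
  apply Isometry.of_dist_eq
  rintro ⟨_, i, rfl⟩ ⟨_, j, rfl⟩
  have he : ∀ k, e ⟨pt 0 t k, mem_range_self k⟩ = ⟨pt c t k, mem_range_self k⟩ := by
    intro k
    change Equiv.ofInjective _ (inj c t) ((Equiv.ofInjective _ (inj 0 t)).symm
      ⟨pt 0 t k, mem_range_self k⟩) = _
    have : (Equiv.ofInjective _ (inj 0 t)).symm ⟨pt 0 t k, mem_range_self k⟩ = k := by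
      rw [Equiv.symm_apply_eq]; rfl
    rw [this]; rfl
  change dist (e ⟨pt 0 t i, mem_range_self i⟩) (e ⟨pt 0 t j, mem_range_self j⟩) = _
  rw [he, he]
  exact dist_pt c h0 h1 t i j

theorem rep (c : ℝ) (h0 : 0 ≤ c) (h1 : c ≤ 1) (t : I) : Nonempty ((geo t).Rep ≃ᵢ S c t) := by
  obtain ⟨e⟩ := pieces c h0 h1 t
  have h : toGHSpace (geo t).Rep = toGHSpace (S 0 t) := (geo t).toGHSpace_rep
  obtain ⟨e'⟩ := toGHSpace_eq_toGHSpace_iff_isometryEquiv.1 h
  exact ⟨e'.trans e⟩

theorem dist_move (c : ℝ) (h0 : 0 ≤ c) (h1 : c ≤ 1) (s t : I) (i : Fin 3) :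
    dist (pt c s i) (pt c t i) ≤ |(s : ℝ) - t| := by
  have h2 : |c * (s : ℝ) - c * t| ≤ |(s : ℝ) - t| := by
    rw [← mul_sub, abs_mul, abs_of_nonneg h0]
    nlinarith [abs_nonneg ((s : ℝ) - t)]
  fin_cases i
  · simp only [pt, Prod.dist_eq, Real.dist_eq, Fin.zero_eta, Matrix.cons_val_zero]
    rw [show -10 - (s : ℝ) - (-10 - t) = -((s : ℝ) - t) by ring, abs_neg]
    simp
  · simp only [pt, Prod.dist_eq, Real.dist_eq, Fin.mk_one, Matrix.cons_val_one,
      Matrix.cons_val_zero]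
    rw [show 10 + (s : ℝ) - (10 + t) = ((s : ℝ) - t) by ring]
    simp
  · simp only [pt, Prod.dist_eq, Real.dist_eq, Fin.reduceFinMk, Matrix.cons_val]
    simpa using h2

theorem hausdorff_le (c : ℝ) (h0 : 0 ≤ c) (h1 : c ≤ 1) (s t : I) :
    hausdorffDist (S c s) (S c t) ≤ |(s : ℝ) - t| := by
  apply hausdorffDist_le_of_mem_dist (abs_nonneg _)
  · rintro _ ⟨i, rfl⟩
    exact ⟨_, mem_range_self i, dist_move c h0 h1 s t i⟩
  · rintro _ ⟨i, rfl⟩
    refine ⟨_, mem_range_self i, ?_⟩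
    rw [dist_comm]
    exact dist_move c h0 h1 s t i

/-- The lower bound by the diameters. -/
theorem gh_ge (s t : I) : (t : ℝ) - s ≤ ghDist (geo s).Rep (geo t).Rep := by
  obtain ⟨e⟩ := rep 0 le_rfl zero_le_one s
  obtain ⟨e'⟩ := rep 0 le_rfl zero_le_one t
  apply le_of_forall_pos_lt_add
  intro ε hε
  have hΦ := isometry_optimalGHInjl (geo s).Rep (geo t).Rep
  have hΨ := isometry_optimalGHInjr (geo s).Rep (geo t).Rep
  have hd := @hausdorffDist_optimal (geo s).Rep _ _ _ (geo t).Rep _ _ _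
  set Φ := optimalGHInjl (geo s).Rep (geo t).Rep
  set Ψ := optimalGHInjr (geo s).Rep (geo t).Rep
  have hlt : hausdorffDist (range Φ) (range Ψ) < ghDist (geo s).Rep (geo t).Rep + ε / 2 := by
    rw [hd]; linarith
  have hfin : hausdorffEDist (range Φ) (range Ψ) ≠ ⊤ :=
    hausdorffEDist_ne_top_of_nonempty_of_bounded (range_nonempty Φ) (range_nonempty Ψ)
      (isCompact_range hΦ.continuous).isBounded (isCompact_range hΨ.continuous).isBounded
  have key : ∀ y : (geo t).Rep, ∃ x : (geo s).Rep,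
      dist (Φ x) (Ψ y) < ghDist (geo s).Rep (geo t).Rep + ε / 2 := by
    intro y
    obtain ⟨z, ⟨x, rfl⟩, hx⟩ := exists_dist_lt_of_hausdorffDist_lt' (mem_range_self y) hlt hfin
    exact ⟨x, hx⟩
  obtain ⟨x, hx⟩ := key (e'.symm ⟨pt 0 t 0, mem_range_self 0⟩)
  obtain ⟨x', hx'⟩ := key (e'.symm ⟨pt 0 t 1, mem_range_self 1⟩)
  have h1 : dist (Ψ (e'.symm ⟨pt 0 t 0, mem_range_self 0⟩)) (Ψ (e'.symm ⟨pt 0 t 1, mem_range_self 1⟩)) =
      20 + 2 * (t : ℝ) := by
    rw [hΨ.dist_eq, e'.symm.dist_eq]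
    exact dist_01 t
  have h2 : dist (Φ x) (Φ x') ≤ 20 + 2 * (s : ℝ) := by
    rw [hΦ.dist_eq, ← e.dist_eq]
    obtain ⟨_, i, hi⟩ := e x
    obtain ⟨_, j, hj⟩ := e x'
    subst hi hj
    exact dist_le s i j
  have h3 := dist_triangle4 (Ψ (e'.symm ⟨pt 0 t 0, mem_range_self 0⟩)) (Φ x) (Φ x')
    (Ψ (e'.symm ⟨pt 0 t 1, mem_range_self 1⟩))
  rw [dist_comm (Ψ (e'.symm ⟨pt 0 t 0, mem_range_self 0⟩)) (Φ x)] at h3
  linarith

theorem gh_abs (s t : I) : |(s : ℝ) - t| ≤ dist (geo s) (geo t) := by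
  rw [abs_le']
  constructor
  · rw [dist_comm, dist_ghDist]
    exact gh_ge t s
  · rw [dist_ghDist, neg_sub]
    exact gh_ge s t

/-- The realization in a set containing the pieces. -/
theorem realize (c : ℝ) (h0 : 0 ≤ c) (h1 : c ≤ 1) :
    ∃ φ : ∀ t : I, (geo t).Rep → (⋃ t : I, S c t : Set (ℝ × ℝ)),
      IsHausdorffRealization geo φ ∧ (∀ s t, dist (geo s) (geo t) = |(s : ℝ) - t|) ∧
      hull geo φ = univ := by
  have e : ∀ t, (geo t).Rep ≃ᵢ S c t := fun t => (rep c h0 h1 t).some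
  let ι : ∀ t : I, S c t → (⋃ t : I, S c t : Set (ℝ × ℝ)) :=
    fun t x => ⟨x.1, mem_iUnion.2 ⟨t, x.2⟩⟩
  have hι : ∀ t, Isometry (ι t) := fun t => Isometry.of_dist_eq fun x y => rfl
  have hφ : ∀ t, Isometry (fun x => ι t (e t x)) := fun t => (hι t).comp (e t).isometry
  have hrange : ∀ t, (Subtype.val '' range (fun x => ι t (e t x)) : Set (ℝ × ℝ)) = S c t := by
    intro t
    ext y
    constructor
    · rintro ⟨_, ⟨x, rfl⟩, rfl⟩
      exact (e t x).2
    · intro hy
      exact ⟨_, ⟨(e t).symm ⟨y, hy⟩, rfl⟩, by simp [ι]⟩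
  have hH : ∀ s t, hausdorffDist (range (fun x => ι s (e s x))) (range (fun x => ι t (e t x))) ≤
      |(s : ℝ) - t| := by
    intro s t
    rw [← hausdorffDist_image (isometry_subtype_coe (s := (⋃ t : I, S c t : Set (ℝ × ℝ)))), hrange,
      hrange]
    exact hausdorff_le c h0 h1 s t
  have hle : ∀ s t, dist (geo s) (geo t) ≤
      hausdorffDist (range (fun x => ι s (e s x))) (range (fun x => ι t (e t x))) := by
    intro s t
    rw [dist_ghDist]
    exact ghDist_le_hausdorffDist (hφ s) (hφ t)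
  have heq : ∀ s t, dist (geo s) (geo t) = |(s : ℝ) - t| := fun s t =>
    le_antisymm ((hle s t).trans (hH s t)) (gh_abs s t)
  refine ⟨fun t x => ι t (e t x), ⟨hφ, fun s t => le_antisymm ((hH s t).trans (gh_abs s t))
    (hle s t)⟩, heq, ?_⟩
  apply eq_univ_of_forall
  rintro ⟨y, hy⟩
  obtain ⟨t, ht⟩ := mem_iUnion.1 hy
  exact mem_iUnion.2 ⟨t, (e t).symm ⟨y, ht⟩, by simp [ι]⟩

theorem compact_union (c : ℝ) : IsCompact (⋃ t : I, S c t : Set (ℝ × ℝ)) := by
  have h : (⋃ t : I, S c t : Set (ℝ × ℝ)) = ⋃ i : Fin 3, range (fun t : I => pt c t i) := by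
    ext y
    simp only [mem_iUnion, mem_range]
    constructor
    · rintro ⟨t, i, h⟩; exact ⟨i, t, h⟩
    · rintro ⟨i, t, h⟩; exact ⟨t, i, h⟩
  rw [h]
  apply isCompact_iUnion
  intro i
  apply isCompact_range
  fin_cases i
  · exact ((continuous_const.sub continuous_subtype_val).prodMk continuous_const)
  · exact ((continuous_const.add continuous_subtype_val).prodMk continuous_const)
  · exact ((continuous_const.mul continuous_subtype_val).prodMk continuous_const)

/-- The first union has an isolated point, the second one has none. -/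
theorem not_isometric : IsEmpty ((⋃ t : I, S 0 t : Set (ℝ × ℝ)) ≃ᵢ (⋃ t : I, S 1 t : Set (ℝ × ℝ))) := by
  refine ⟨fun e => ?_⟩
  set p : (⋃ t : I, S 0 t : Set (ℝ × ℝ)) := ⟨(0, 15), mem_iUnion.2 ⟨0, 2, by simp [pt]⟩⟩ with hp
  have hiso : ∀ q, q ≠ p → 15 ≤ dist q p := by
    rintro ⟨q, hq⟩ hne
    obtain ⟨t, i, rfl⟩ := mem_iUnion.1 hq
    fin_cases i
    · change 15 ≤ dist (pt 0 t 0) (0, 15)
      simp [pt, Prod.dist_eq, Real.dist_eq]
    · change 15 ≤ dist (pt 0 t 1) (0, 15)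
      simp [pt, Prod.dist_eq, Real.dist_eq]
    · exact absurd (Subtype.ext (by simp [pt, hp])) hne
  obtain ⟨⟨q, hq⟩, hqe⟩ : ∃ q, e p = q := ⟨_, rfl⟩
  obtain ⟨t, i, rfl⟩ := mem_iUnion.1 hq
  -- another parameter
  obtain ⟨s, hs⟩ : ∃ s : I, s ≠ t := exists_ne t
  have hs' : (s : ℝ) ≠ t := fun h => hs (Subtype.ext h)
  set q' : (⋃ t : I, S 1 t : Set (ℝ × ℝ)) := ⟨pt 1 s i, mem_iUnion.2 ⟨s, i, rfl⟩⟩ with hq'
  have hd : dist q' (e p) ≤ 1 := by
    rw [hqe]
    refine (dist_move 1 zero_le_one le_rfl s t i).trans ?_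
    rw [abs_le]
    have a1 := s.2.1
    have a2 := s.2.2
    have a3 := t.2.1
    have a4 := t.2.2
    constructor <;> linarith
  have hne : q' ≠ e p := by
    rw [hqe]
    intro h
    have h2 : pt 1 s i = pt 1 t i := congrArg Subtype.val h
    have h3 := congrArg Prod.fst h2
    fin_cases i
    · exact hs' (by simp [pt] at h3; exact h3)
    · exact hs' (by simp [pt] at h3; exact h3)
    · exact hs' (by simp [pt] at h3; exact h3)
  have h1 := hiso (e.symm q') (fun h => hne (by rw [← h]; simp))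
  have h2 : dist (e.symm q') p = dist q' (e p) := by
    rw [← e.dist_eq]; simp
  rw [h2] at h1
  linarith

/-- **The geodesic hull is not unique.** There are a Gromov-Hausdorff geodesic `γ`, non-isometric
compact metric spaces `X` and `Y`, and Hausdorff realizations of `γ` in `X` and in `Y` such that the
unions `𝒢_X` and `𝒢_Y` of the images are not isometric. -/
theorem result : ∃ (γ : I → GHSpace) (X Y : Type) (_ : MetricSpace X) (_ : MetricSpace Y)
    (φ : ∀ t : I, (γ t).Rep → X) (ψ : ∀ t : I, (γ t).Rep → Y),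
    IsGHGeodesic γ ∧ γ 0 ≠ γ 1 ∧ CompactSpace X ∧ CompactSpace Y ∧ IsEmpty (X ≃ᵢ Y) ∧
    IsHausdorffRealization γ φ ∧ IsHausdorffRealization γ ψ ∧
    IsEmpty (hull γ φ ≃ᵢ hull γ ψ) := by
  obtain ⟨φ, hφ, hd, hφ1⟩ := realize 0 le_rfl zero_le_one
  obtain ⟨ψ, hψ, -, hψ1⟩ := realize 1 zero_le_one le_rfl
  refine ⟨geo, _, _, inferInstance, inferInstance, φ, ψ, ?_, ?_,
    isCompact_iff_compactSpace.1 (compact_union 0), isCompact_iff_compactSpace.1 (compact_union 1),
    not_isometric, hφ, hψ, ?_⟩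
  · intro s t
    rw [hd, hd]
    simp
  · intro h
    have := hd 0 1
    rw [h, dist_self] at this
    simp at this
  · refine ⟨fun e => not_isometric.false ?_⟩
    rw [hφ1, hψ1] at e
    have u : ∀ (A : Set (ℝ × ℝ)), (univ : Set A) ≃ᵢ A := fun A =>
      { toEquiv := Equiv.Set.univ A, isometry_toFun := isometry_subtype_coe }
    exact ((u _).symm.trans e).trans (u _)

end Pool.Agent.Results.MP_457a5a_gt.TwoHulls
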